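import Pool.Agent.NBT.StmtsE
import Pool.Agent.Helper37_PFS.Main

/-!
# NBT, row COC: the stabiliser of the levels is cocompact along the flat
-/

set_option autoImplicit false

open Matrix Filter Topology

namespace Pool.Agent.NBT.H32

open Pool.Agent.PFS Pool.Agent.PFJ

theorem mem_img' {n : ℕ} {g : GL (Fin n) ℝ} {L : Submodule ℝ (V n)} {x : V n} :
    x ∈ img g L ↔ ∃ y ∈ L, act g y = x := by
  unfold img
  rw [Submodule.mem_map]
  rfl

theorem img_inv' {n : ℕ} {g : GL (Fin n) ℝ} {L : Submodule ℝ (V n)} (h : img g L = L) :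
    img g⁻¹ L = L := by
  ext x
  constructor
  · intro hx
    obtain ⟨y, hy, hyx⟩ := mem_img'.1 hx
    rw [← h] at hy
    obtain ⟨z, hz, hzy⟩ := mem_img'.1 hy
    rw [← hzy, CC.act_inv_act] at hyx
    rwa [← hyx]
  · intro hx
    refine mem_img'.2 ⟨act g x, ?_, CC.act_inv_act g x⟩
    rw [← h]
    exact mem_img'.2 ⟨x, hx, rfl⟩

/-- two positions on the flat are related by an element which preserves the levels -/
def Rl {n K : ℕ} (C : Set (V n)) (Γ₀ : Subgroup (GL (Fin n) ℝ)) (a : Fin K → ℝ)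
    (w : Fin K → V n) (t t' : Fin K → ℝ) : Prop :=
  ∃ γ ∈ Γ₀, ∃ s : ℝ, 0 < s ∧ (∀ i, img γ (BI C w (lev a i)) = BI C w (lev a i)) ∧
    (2 : ℝ) • (s • act γ (xs w t')) - xs w t ∈ closure C ∧
    (2 : ℝ) • xs w t - s • act γ (xs w t') ∈ closure C

theorem rl_symm {n K : ℕ} {C : Set (V n)} {Γ Γ₀ : Subgroup (GL (Fin n) ℝ)} (h : CC C Γ)
    (hΓ : Γ₀ ≤ Γ) {a : Fin K → ℝ} {w : Fin K → V n} {t t' : Fin K → ℝ}
    (hr : Rl C Γ₀ a w t t') : Rl C Γ₀ a w t' t := by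
  obtain ⟨γ, hγ, s, hs, him, h1, h2⟩ := hr
  have hs' : 0 < s⁻¹ := inv_pos.2 hs
  have hcancel : ∀ x : V n, s⁻¹ • act γ⁻¹ (s • act γ x) = x := by
    intro x
    rw [CC.act_smul, CC.act_inv_act, smul_smul, inv_mul_cancel₀ hs.ne', one_smul]
  refine ⟨γ⁻¹, Γ₀.inv_mem hγ, s⁻¹, hs', fun i => img_inv' (him i), ?_, ?_⟩
  · have h3 := (h.sact_cl_iff (Γ.inv_mem (hΓ hγ)) hs').2 h2
    rw [CC.act_sub, smul_sub, hcancel, CC.act_smul, smul_comm] at h3
    exact h3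
  · have h3 := (h.sact_cl_iff (Γ.inv_mem (hΓ hγ)) hs').2 h1
    rw [CC.act_sub, smul_sub, CC.act_smul γ⁻¹ 2, smul_comm, hcancel] at h3
    exact h3

/-- a sequence along which a relation fails, if it fails eventually for every first entry -/
theorem bad_seq' {P : ℕ → ℕ → Prop} (h : ∀ a, ∀ᶠ b in atTop, P a b) :
    ∃ ψ : ℕ → ℕ, ∀ a b, a < b → P (ψ a) (ψ b) := by
  have h1 : ∀ a, ∃ N : ℕ, ∀ b, N ≤ b → P a b := fun a => eventually_atTop.1 (h a)
  choose F hF using h1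
  obtain ⟨G, hG⟩ : ∃ G : ℕ → ℕ, G = fun m => (Finset.range (m + 1)).sup F + (m + 1) := ⟨_, rfl⟩
  have hGF : ∀ a m, a ≤ m → F a ≤ G m := by
    intro a m ham
    rw [hG]
    dsimp only
    have h2 : F a ≤ (Finset.range (m + 1)).sup F :=
      Finset.le_sup (Finset.mem_range.2 (Nat.lt_succ_of_le ham))
    omega
  have hGm : ∀ m, m < G m := by
    intro m
    rw [hG]
    dsimp only
    omega
  obtain ⟨ψ, hψ⟩ : ∃ ψ : ℕ → ℕ, ∀ a, ψ (a + 1) = G (ψ a) :=
    ⟨fun a => Nat.rec 0 (fun _ x => G x) a, fun a => rfl⟩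
  have hmono : StrictMono ψ := strictMono_nat_of_lt_succ fun a => by
    rw [hψ a]
    exact hGm _
  refine ⟨ψ, fun a b hab => ?_⟩
  obtain ⟨b', rfl⟩ : ∃ b', b = b' + 1 := ⟨b - 1, by omega⟩
  apply hF
  rw [hψ b']
  exact hGF _ _ (hmono.monotone (Nat.lt_succ_iff.1 hab))

/-- **Row COC.** -/
theorem coc (hTbf : TbfStmt) (hBin : BinStmt) (hRte : RteStmt) : CocStmt := by
  intro n C Γ Γ₀ K T c hT a ε hpot w hw r hr
  have h : CC C Γ := hT.cc
  have hΓ : Γ₀ ≤ Γ := hT.sub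
  have hP : IsPES C Γ w := hT.pes w hw
  obtain ⟨N, hret⟩ := hRte n C Γ Γ₀ K T c hT a ε hpot
  obtain ⟨t, ht⟩ : ∃ t : ℕ → Fin K → ℝ, ∀ m i, Real.exp (t m i) = r m i :=
    ⟨fun m i => Real.log (r m i), fun m i => Real.exp_log (hr m i)⟩
  have hxC : ∀ u : Fin K → ℝ, xs w u ∈ C := fun u => hP.1.pos _ fun i => Real.exp_pos _
  have hfreq : ∃ m0, ∃ᶠ m in atTop, Rl C Γ₀ a w (t m0) (t m) := by
    by_contra hcon
    push Not at hcon
    obtain ⟨ψ, hψ⟩ := bad_seq' (P := fun b b' => ¬ Rl C Γ₀ a w (t b) (t b')) hcon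
    obtain ⟨m, m', hne, hrel⟩ := hret w hw (fun i => t (ψ i))
    rcases lt_or_gt_of_ne (fun e => hne (Fin.ext e) : (m : ℕ) ≠ (m' : ℕ)) with h1 | h1
    · exact hψ _ _ h1 hrel
    · exact hψ _ _ h1 (rl_symm h hΓ hrel)
  obtain ⟨m0, hm0⟩ := hfreq
  obtain ⟨φ, hφ, hrel⟩ := extraction_of_frequently_atTop hm0
  choose γ hγ s hs him h1 h2 using hrel
  -- the simplices
  obtain ⟨Y, hY⟩ : ∃ Y : ℕ → Fin K → V n,
      Y = fun m i => s m • act (γ m) (r (φ m) i • w i) := ⟨_, rfl⟩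
  have hYT : ∀ m, T (Y m) := by
    intro m
    rw [hY]
    exact hT.scl _ (hT.inv _ (hT.scl w hw (r (φ m)) (hr (φ m))) (γ m) (hγ m)) (fun _ => s m)
      fun _ => hs m
  have hYs : ∀ m, ∑ i, Y m i = s m • act (γ m) (xs w (t (φ m))) := by
    intro m
    rw [hY]
    dsimp only
    rw [← Finset.smul_sum, ← CC.act_sum]
    unfold xs
    refine congrArg (fun z => s m • act (γ m) z) (Finset.sum_congr rfl fun i _ => ?_)
    rw [ht]
  have hqcl : ∀ m, ∑ i, Y m i ∈ closure C := by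
    intro m
    rw [hYs]
    exact (h.sact_cl_iff (hΓ (hγ m)) (hs m)).2 (subset_closure (hxC _))
  obtain ⟨B, hB, hnorm⟩ := h.toPCone.normal
  have hbd : Bornology.IsBounded (Metric.closedBall (0 : V n) (B * ‖(2 : ℝ) • xs w (t m0)‖)) :=
    Metric.isBounded_closedBall
  obtain ⟨p, -, θ, hθ, hlim⟩ := tendsto_subseq_of_bounded hbd (x := fun m => ∑ i, Y m i)
    (fun m => by
      rw [mem_closedBall_zero_iff]
      refine hnorm _ _ (hqcl m) ?_
      rw [hYs]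
      exact h2 m)
  have hpcl : (2 : ℝ) • p - xs w (t m0) ∈ closure C := by
    refine isClosed_closure.mem_of_tendsto ((hlim.const_smul (2 : ℝ)).sub_const (xs w (t m0)))
      (Eventually.of_forall fun m => ?_)
    dsimp only [Function.comp]
    rw [hYs]
    exact h1 (θ m)
  have hp2 : (2 : ℝ) • p ∈ C := by
    have h3 := h.toPCone.cl_add' hpcl (hxC (t m0))
    rwa [sub_add_cancel] at h3
  have hp : p ∈ C := (h.toPCone.smul_iff (by norm_num : (0 : ℝ) < 2)).1 hp2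
  have hK : 2 ≤ Fintype.card (Fin K) := by
    have := hT.three
    simp only [Fintype.card_fin]
    omega
  obtain ⟨κ, v, hκ, hv, hvs, -⟩ := H37.lpsF n C Γ h (Fin K) hK (fun m => Y (θ m)) p
    (fun m => hT.pes _ (hYT (θ m))) hp hlim
  have hTv : T v := by
    refine hT.cld (fun m => Y (θ (κ m))) v (fun m => hYT _) hv ?_
    rw [hvs]
    exact hp
  refine ⟨fun m => φ (θ (κ m)), fun m => γ (θ (κ m)), fun m => s (θ (κ m)), v,
    hφ.comp (hθ.comp hκ), fun m => hγ _, fun m => hs _, hTv, ?_, fun m => him _, ?_⟩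
  · intro i
    refine (hv i).congr fun m => ?_
    rw [hY]
  · intro i
    refine (hBin n C Γ Γ₀ K T c hT w hw).2.2.1 v hTv (lev a i) ?_
    intro j hj
    have hwj : w j ∈ BI C w (lev a i) := ((hTbf n C Γ Γ₀ K T c hT w hw).2.2.2.2.2.1 j _).2 hj
    have hcl : IsClosed ((BI C w (lev a i) : Submodule ℝ (V n)) : Set (V n)) :=
      Submodule.closed_of_finiteDimensional _
    refine hcl.mem_of_tendsto (hv j) (Eventually.of_forall fun m => ?_)
    show Y (θ (κ m)) j ∈ BI C w (lev a i)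
    rw [hY]
    refine Submodule.smul_mem _ _ ?_
    rw [← him (θ (κ m)) i]
    exact mem_img'.2 ⟨_, Submodule.smul_mem _ _ hwj, rfl⟩

end Pool.Agent.NBT.H32
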