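import Pool.Agent.NBT.StmtsF

/-!
# NBT, row FMS: Selberg's lemma for families
-/

set_option autoImplicit false

open Matrix Filter Topology

namespace Pool.Agent.NBT.H32

open Pool.Agent.PFS Pool.Agent.PFJ

/-- conjugates of an element by zooming elements form a finite set, for a varying simplex with fixed
eigenvalues -/
theorem fix_fam {n : ℕ} {C : Set (V n)} {Γ : Subgroup (GL (Fin n) ℝ)} (h : CC C Γ) {K : ℕ}
    (x : ℕ → Fin K → V n) (hx : ∀ m, IsPES C Γ (x m)) (σ : GL (Fin n) ℝ) (hσ : σ ∈ Γ)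
    (nu : Fin K → ℝ) (hnu0 : ∀ i, 0 < nu i) (hnu1 : ∀ m i, act σ (x m i) = nu i • x m i)
    (g : ℕ → GL (Fin n) ℝ) (s : ℕ → ℝ) (p : V n) (hg : ∀ m, g m ∈ Γ) (hs : ∀ m, 0 < s m)
    (hp : p ∈ C) (hlim : Tendsto (fun m => s m • act (g m) (∑ i, x m i)) atTop (𝓝 p)) :
    (Set.range fun m => g m * σ * (g m)⁻¹).Finite := by
  obtain ⟨f1, f2, -, f4, f5, -, -, -⟩ := Pool.Agent.PFS.H87.cmf n C Γ h
  -- bounds for the eigenvalues
  obtain ⟨c0, hc0, hc0'⟩ : ∃ c0 : ℝ, 0 < c0 ∧ ∀ i, c0 ≤ nu i := by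
    have hpos : 0 ≤ ∑ i, (nu i)⁻¹ := Finset.sum_nonneg fun i _ => (inv_pos.2 (hnu0 i)).le
    refine ⟨(1 + ∑ i, (nu i)⁻¹)⁻¹, by positivity, fun i => ?_⟩
    have h1 : (nu i)⁻¹ ≤ ∑ i, (nu i)⁻¹ :=
      Finset.single_le_sum (f := fun i => (nu i)⁻¹) (fun j _ => (inv_pos.2 (hnu0 j)).le)
        (Finset.mem_univ i)
    rw [inv_le_comm₀ (by positivity) (hnu0 i)]
    linarith
  obtain ⟨c1, hc1, hc1'⟩ : ∃ c1 : ℝ, 0 < c1 ∧ ∀ i, nu i ≤ c1 := by
    have hpos : 0 ≤ ∑ i, nu i := Finset.sum_nonneg fun i _ => (hnu0 i).le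
    refine ⟨1 + ∑ i, nu i, by positivity, fun i => ?_⟩
    have h1 : nu i ≤ ∑ i, nu i :=
      Finset.single_le_sum (f := fun i => nu i) (fun j _ => (hnu0 j).le) (Finset.mem_univ i)
    linarith
  have hcl : ∀ m i, x m i ∈ closure C := fun m i => h.hul.lamCl _ ((hx m).2 i)
  -- the points
  set P : ℕ → V n := fun m => ∑ i, x m i with hP
  set Y : ℕ → V n := fun m => s m • act (g m) (P m) with hY
  have hPC : ∀ m, P m ∈ C := by
    intro m
    have h1 := (hx m).1.pos (fun _ => 1) (fun _ => one_pos)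
    simpa [hP] using h1
  have hYC : ∀ m, Y m ∈ C := fun m => (h.sact_mem_iff (hg m) (hs m)).2 (hPC m)
  have hσP : ∀ m, act σ (P m) = ∑ i, nu i • x m i := by
    intro m
    rw [hP]
    simp only
    rw [CC.act_sum]
    exact Finset.sum_congr rfl fun i _ => hnu1 m i
  have hb1 : ∀ m, act σ (P m) - c0 • P m ∈ closure C := by
    intro m
    have e : act σ (P m) - c0 • P m = ∑ i, (nu i - c0) • x m i := by
      rw [hσP, hP]
      simp only
      rw [Finset.smul_sum, ← Finset.sum_sub_distrib]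
      exact Finset.sum_congr rfl fun i _ => (sub_smul _ _ _).symm
    rw [e]
    exact h.toPCone.cl_sum fun i _ => h.toPCone.cl_smul (hcl m i) (sub_nonneg.2 (hc0' i))
  have hb2 : ∀ m, c1 • P m - act σ (P m) ∈ closure C := by
    intro m
    have e : c1 • P m - act σ (P m) = ∑ i, (c1 - nu i) • x m i := by
      rw [hσP, hP]
      simp only
      rw [Finset.smul_sum, ← Finset.sum_sub_distrib]
      exact Finset.sum_congr rfl fun i _ => (sub_smul _ _ _).symm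
    rw [e]
    exact h.toPCone.cl_sum fun i _ => h.toPCone.cl_smul (hcl m i) (sub_nonneg.2 (hc1' i))
  have hcmp : ∀ m, Cmp C (c1 / c0) (act σ (P m)) (P m) := by
    intro m
    refine ⟨c0⁻¹, inv_pos.2 hc0, ?_, ?_⟩
    · have e : c0⁻¹ • act σ (P m) - P m = c0⁻¹ • (act σ (P m) - c0 • P m) := by
        rw [smul_sub, smul_smul, inv_mul_cancel₀ hc0.ne', one_smul]
      rw [e]
      exact h.toPCone.cl_smul (hb1 m) (inv_pos.2 hc0).le
    · have e : (c1 / c0) • P m - c0⁻¹ • act σ (P m) = c0⁻¹ • (c1 • P m - act σ (P m)) := by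
        rw [smul_sub, smul_smul, inv_mul_eq_div]
      rw [e]
      exact h.toPCone.cl_smul (hb2 m) (inv_pos.2 hc0).le
  have hM : 0 ≤ c1 / c0 := by positivity
  -- the conjugates
  set τ : ℕ → GL (Fin n) ℝ := fun m => g m * σ * (g m)⁻¹ with hτ
  have hτΓ : ∀ m, τ m ∈ Γ := fun m =>
    Γ.mul_mem (Γ.mul_mem (hg m) hσ) (Γ.inv_mem (hg m))
  have hτY : ∀ m, act (τ m) (Y m) = s m • act (g m) (act σ (P m)) := by
    intro m
    rw [hτ, hY]
    simp only
    rw [CC.act_smul, CC.act_mul, CC.act_mul, CC.act_inv_act]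
  have hcmp2 : ∀ m, Cmp C (c1 / c0) (act (τ m) (Y m)) (Y m) := by
    intro m
    rw [hτY, hY]
    exact (f5 _ _ _ _ _ (hs m) (hs m)).2 ((f4 _ _ _ _ (hg m)).2 (hcmp m))
  obtain ⟨M1, hM1, hev⟩ := Pool.Agent.PFS.H81.cmc n C h.toPCone Y (fun _ => p) p p hp hp hlim
    tendsto_const_nhds
  have hM10 : 0 ≤ M1 := by linarith
  have hfin := Pool.Agent.PFS.H3.prp n C Γ h p hp (M1 * (c1 / c0) * M1)
  have hev2 : ∀ᶠ m in atTop, τ m ∈ {γ : GL (Fin n) ℝ | γ ∈ Γ ∧
      Cmp C (M1 * (c1 / c0) * M1) (act γ p) p} := by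
    filter_upwards [hev] with m hm
    refine ⟨hτΓ m, ?_⟩
    have hτp : act (τ m) p ∈ C := (h.act_mem_iff (hτΓ m)).2 hp
    have hτYC : act (τ m) (Y m) ∈ C := (h.act_mem_iff (hτΓ m)).2 (hYC m)
    have h1 : Cmp C M1 (act (τ m) (Y m)) (act (τ m) p) := (f4 _ _ _ _ (hτΓ m)).2 hm
    have h2 : Cmp C M1 (act (τ m) p) (act (τ m) (Y m)) := f1 _ _ _ hτYC hτp h1
    have h3 := f2 _ _ _ _ _ hM10 hM hτp hτYC (hYC m) h2 (hcmp2 m)
    exact f2 _ _ _ _ _ (mul_nonneg hM10 hM) hM10 hτp (hYC m) hp h3 hm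
  obtain ⟨N, hN⟩ := eventually_atTop.1 hev2
  refine (hfin.union ((Finset.range N).finite_toSet.image τ)).subset ?_
  rintro _ ⟨m, rfl⟩
  rcases lt_or_ge m N with hm | hm
  · exact Or.inr ⟨m, by simpa using hm, rfl⟩
  · exact Or.inl (hN m hm)

/-- a function with finite range is constant on a subsequence -/
theorem const_subseq {β : Type} (f : ℕ → β) (hf : (Set.range f).Finite) :
    ∃ ψ : ℕ → ℕ, StrictMono ψ ∧ ∀ m, f (ψ m) = f (ψ 0) := by
  have hinf : ∃ b : β, {m : ℕ | f m = b}.Infinite := by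
    by_contra hcon
    push Not at hcon
    have hun : (Set.univ : Set ℕ) ⊆ ⋃ b ∈ Set.range f, {m : ℕ | f m = b} := by
      intro m _
      simp only [Set.mem_iUnion]
      exact ⟨f m, ⟨m, rfl⟩, rfl⟩
    exact Set.infinite_univ ((hf.biUnion fun b _ => hcon b).subset hun)
  obtain ⟨b, hb⟩ := hinf
  obtain ⟨ψ, hψ, hψb⟩ := Filter.extraction_of_frequently_atTop
    (Nat.frequently_atTop_iff_infinite.mpr hb)
  exact ⟨ψ, hψ, fun m => (hψb m).trans (hψb 0).symm⟩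

/-- the index set of an `IsPES` simplex has at least two elements -/
theorem two_le {n : ℕ} {C : Set (V n)} {Γ : Subgroup (GL (Fin n) ℝ)} (h : CC C Γ) {K : ℕ}
    {w : Fin K → V n} (hw : IsPES C Γ w) : 2 ≤ K := by
  have hp := hw.1.pos (fun _ => 1) (fun _ => one_pos)
  by_contra hK
  have hK' : K = 0 ∨ K = 1 := by omega
  rcases hK' with rfl | rfl
  · apply h.zero
    simpa using hp
  · have h0 : w 0 ∈ C := by simpa using hp
    exact h.hul.lamNot _ (hw.2 0) h0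

/-- the eigenvalues are positive -/
theorem eig_pos {n : ℕ} {C : Set (V n)} {Γ : Subgroup (GL (Fin n) ℝ)} (h : CC C Γ) {σ : GL (Fin n) ℝ}
    (hσ : σ ∈ Γ) {v : V n} (hv : v ∈ LamC C Γ) {a : ℝ} (ha : act σ v = a • v) : 0 < a := by
  have hcl : v ∈ closure C := h.hul.lamCl _ hv
  have h0 : v ≠ 0 := h.hul.lamNe _ hv
  by_contra hn
  have hn' : 0 ≤ -a := by linarith
  have h1 : act σ v ∈ closure C := h.act_cl hσ hcl
  have h2 : -(act σ v) ∈ closure C := by
    rw [ha, ← neg_smul]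
    exact h.toPCone.cl_smul hcl hn'
  have h3 := h.salient _ h1 h2
  exact h0 (CC.act_injective σ (h3.trans (CC.act_zero σ).symm))

theorem cen_comm {n : ℕ} {Γ : Subgroup (GL (Fin n) ℝ)} {q : ℕ} {α : Fin q → GL (Fin n) ℝ}
    {g : GL (Fin n) ℝ} (hg : g ∈ Cen Γ α) (j : Fin q) : α j * g = g * α j := by
  have h1 := hg.2
  exact Subgroup.mem_centralizer_iff.mp h1 (α j) ⟨j, rfl⟩

theorem fms : FmsStmt := by
  intro n C Γ K h q α lam hα
  refine ⟨inf_le_left, fun w hw => hw.1, ?_, ?_, ?_, ?_⟩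
  · -- inv
    intro w hw g hg
    refine ⟨?_, ?_⟩
    · have h1 := (H60.elm n C Γ h (Fin K) w hw.1).2.1 g hg.1 1 one_pos
      simpa using h1
    · intro j i
      rw [← CC.act_mul, cen_comm hg j, CC.act_mul, hw.2 j i, CC.act_smul]
  · -- scl
    intro w hw r hr
    refine ⟨(H60.elm n C Γ h (Fin K) w hw.1).1 r hr, ?_⟩
    intro j i
    rw [CC.act_smul, hw.2 j i, smul_comm]
  · -- cld
    intro x w hx hlim hsum
    have hK : 2 ≤ K := two_le h (hx 0).1
    have hsl : Tendsto (fun m => ∑ i, x m i) atTop (𝓝 (∑ i, w i)) :=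
      tendsto_finsetSum _ fun i _ => hlim i
    obtain ⟨φ, w', hφ, hw', -, hP⟩ := H37.lpsF n C Γ h (Fin K) (by simpa using hK) x _
      (fun m => (hx m).1) hsum hsl
    have e : w' = w := by
      funext i
      exact tendsto_nhds_unique (hw' i) ((hlim i).comp hφ.tendsto_atTop)
    rw [e] at hP
    refine ⟨hP, ?_⟩
    intro j i
    have h1 : Tendsto (fun m => act (α j) (x m i)) atTop (𝓝 (act (α j) (w i))) :=
      ((CC.act_continuous (α j)).tendsto (w i)).comp (hlim i)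
    have h2 : Tendsto (fun m => lam j i • x m i) atTop (𝓝 (lam j i • w i)) :=
      (hlim i).const_smul (lam j i)
    refine tendsto_nhds_unique h1 (h2.congr fun m => ?_)
    exact ((hx m).2 j i).symm
  · -- cpt
    intro x hx
    have hpC : ∀ m, ∑ i, x m i ∈ C := by
      intro m
      have h1 := (hx m).1.1.pos (fun _ => 1) (fun _ => one_pos)
      simpa using h1
    have hpH : ∀ m, ∑ i, x m i ∈ Hull C Γ := by
      intro m
      have h1 := (H60.elm n C Γ h (Fin K) (x m) (hx m).1).2.2.2.1 (fun _ => 1)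
        (fun _ => one_pos)
      simpa using h1
    obtain ⟨φ, g, s, p, hφ, hg, hs, hp, hlim⟩ := H60.zom n C Γ h (fun m => ∑ i, x m i) hpC hpH
    -- finitely many conjugates
    have hfin : ∀ j, (Set.range fun m => g m * α j * (g m)⁻¹).Finite := by
      intro j
      exact fix_fam h (fun m => x (φ m)) (fun m => (hx (φ m)).1) (α j) (hα j) (lam j)
        (fun i => eig_pos h (hα j) ((hx 0).1.2 i) ((hx 0).2 j i))
        (fun m i => (hx (φ m)).2 j i) g s p hg hs hp hlim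
    have hfin2 : (Set.range fun m => fun j => g m * α j * (g m)⁻¹).Finite := by
      refine (Set.Finite.pi' hfin).subset ?_
      rintro _ ⟨m, rfl⟩ j
      exact ⟨m, rfl⟩
    obtain ⟨ψ, hψ, hconst⟩ := const_subseq _ hfin2
    refine ⟨φ ∘ ψ, fun m => (g (ψ 0))⁻¹ * g (ψ m), fun m => s (ψ m), act (g (ψ 0))⁻¹ p,
      hφ.comp hψ, ?_, fun m => hs (ψ m), (h.act_mem_iff (Γ.inv_mem (hg _))).2 hp, ?_⟩
    · intro m
      refine ⟨Γ.mul_mem (Γ.inv_mem (hg _)) (hg _), ?_⟩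
      show (g (ψ 0))⁻¹ * g (ψ m) ∈ Subgroup.centralizer (Set.range α)
      rw [Subgroup.mem_centralizer_iff]
      rintro _ ⟨j, rfl⟩
      have e : g (ψ m) * α j * (g (ψ m))⁻¹ = g (ψ 0) * α j * (g (ψ 0))⁻¹ :=
        congrFun (hconst m) j
      have e2 : g (ψ m) * α j = g (ψ 0) * α j * (g (ψ 0))⁻¹ * g (ψ m) := by
        rw [← e]; group
      calc α j * ((g (ψ 0))⁻¹ * g (ψ m)) =
          (g (ψ 0))⁻¹ * (g (ψ 0) * α j * (g (ψ 0))⁻¹ * g (ψ m)) := by group
        _ = (g (ψ 0))⁻¹ * (g (ψ m) * α j) := by rw [e2]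
        _ = (g (ψ 0))⁻¹ * g (ψ m) * α j := by group
    · have h1 : Tendsto (fun m => s (ψ m) • act (g (ψ m)) (∑ i, x (φ (ψ m)) i)) atTop (𝓝 p) :=
        hlim.comp hψ.tendsto_atTop
      have h2 := ((CC.act_continuous (g (ψ 0))⁻¹).tendsto p).comp h1
      refine h2.congr fun m => ?_
      show act (g (ψ 0))⁻¹ (s (ψ m) • act (g (ψ m)) (∑ i, x (φ (ψ m)) i)) = _
      rw [CC.act_smul, ← CC.act_mul]
      rfl

end Pool.Agent.NBT.H32
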