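import Pool.Agent.NBT.StmtsA

/-!
# NBT, row SXN: helpers of a move
-/

set_option autoImplicit false

open Matrix Filter Topology

namespace Pool.Agent.NBT.H32

open Pool.Agent.PFS Pool.Agent.PFJ

/-- a vertex is not below a multiple of another vertex -/
theorem not_le_vertex {n : ℕ} {C : Set (V n)} (h : PCone C) {K : ℕ} {w : Fin K → V n}
    (hw : PES C w) {k i : Fin K} (hik : i ≠ k) (A : ℝ) : A • w k - w i ∉ closure C := by
  intro hc
  have h1 := nng n C h (Fin K) w hw (Pi.single k A + Pi.single i (-1)) (by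
    have e : ∑ m, (Pi.single k A + Pi.single i (-1) : Fin K → ℝ) m • w m = A • w k - w i := by
      simp only [Pi.add_apply, add_smul, Finset.sum_add_distrib, Pi.single_apply, ite_smul,
        zero_smul, Finset.sum_ite_eq', Finset.mem_univ, if_true, neg_smul, one_smul]
      abel
    rw [e]; exact hc) i
  simp only [Pi.add_apply, Pi.single_eq_same, Pi.single_eq_of_ne hik] at h1
  linarith

theorem sxn (hTbf : TbfStmt) (hPje : PjeStmt) (hPjf : PjfStmt) (hMvb : MvbStmt) : SxnStmt := by
  intro n C Γ Γ₀ K T c hT w hw k x hx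
  have h : CC C Γ := hT.cc
  have hP : IsPES C Γ w := hT.pes w hw
  obtain ⟨-, t2, -, t4, -, t6, -, t8, -, -, -, -, t13⟩ := hTbf n C Γ Γ₀ K T c hT w hw
  obtain ⟨m1, m2⟩ := hMvb n C Γ Γ₀ K T c hT w hw k
  obtain ⟨hxcl, hx0, -, hxL, m3⟩ := m1 x hx
  -- a non-helper can be omitted
  have hom : ∀ i, i ≠ k → ¬ Sx C w k x i → x ∈ BI C w (Finset.univ.erase i) := by
    intro i hik hns
    obtain ⟨p, hp⟩ := hPje n C Γ Γ₀ K T c hT w hw {k, i}
    obtain ⟨q1, q2, -⟩ := hPjf n C Γ Γ₀ K T c hT w hw {k, i} p hp
    have hpx : ∃ a : ℝ, p x = a • w k := by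
      by_contra hcon
      push Not at hcon
      exact hns ⟨hik, p, hp, hcon⟩
    obtain ⟨a, ha⟩ := hpx
    have hk : w k ∈ BI C w {k, i} := (t6 k _).2 (by simp)
    have hi : w i ∈ BI C w {k, i} := (t6 i _).2 (by simp)
    have hpz : p ((∑ m ∈ Finset.univ.erase i, w m) + x) = (1 + a) • w k := by
      rw [map_add, map_sum, ha, add_smul, one_smul]
      congr 1
      rw [Finset.sum_eq_single k]
      · exact hp.idB _ hk
      · intro b hb hbk
        refine q1 b ?_
        have hbi := Finset.ne_of_mem_erase hb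
        simp [hbk, hbi]
      · intro hkn
        exact absurd (Finset.mem_erase.2 ⟨fun e => hik e.symm, Finset.mem_univ k⟩) hkn
    have hz : (∑ m ∈ Finset.univ.erase i, w m) + x ∉ C := by
      intro hz
      obtain ⟨M, -, hM⟩ := (q2 _ hz).2.2 (w i) hi
      rw [hpz, smul_smul] at hM
      exact not_le_vertex h.toPCone hP.1 hik _ hM
    obtain ⟨M, -, hM⟩ := Pool.Agent.PFJ.H10.fmx n C Γ h K hT.three hT.maxc w i x hP hxL hz
    exact t2 _ x hxcl M hM
  -- the characterisation
  have h3 : ∀ J : Finset (Fin K), k ∈ J → ((∀ i, Sx C w k x i → i ∈ J) ↔ x ∈ BI C w J) := by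
    intro J hkJ
    constructor
    · intro hall
      have key : ∀ A : Finset (Fin K), (∀ i ∈ A, i ∉ J) → x ∈ BI C w Aᶜ := by
        intro A
        induction A using Finset.induction_on with
        | empty =>
          intro _
          rw [Finset.compl_empty, t13]
          exact Submodule.mem_top
        | insert i A hiA ih =>
          intro hA
          have hiJ : i ∉ J := hA i (Finset.mem_insert_self i A)
          have h1 := ih fun j hj => hA j (Finset.mem_insert_of_mem hj)
          have h2 : x ∈ BI C w (Finset.univ.erase i) := by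
            refine hom i ?_ fun hs => hiJ (hall i hs)
            rintro rfl
            exact hiJ hkJ
          have h4 : x ∈ BI C w Aᶜ ⊓ BI C w (Finset.univ.erase i) := ⟨h1, h2⟩
          rw [t4] at h4
          have e : Aᶜ ∩ Finset.univ.erase i = (insert i A)ᶜ := by
            ext j
            simp [and_comm]
          rwa [e] at h4
      have h5 := key Jᶜ fun i hi => by simpa using hi
      rwa [compl_compl] at h5
    · intro hxJ i hs
      by_contra hiJ
      obtain ⟨-, p, hp, hne⟩ := hs
      obtain ⟨a, ha⟩ := m2 J hkJ i hiJ p hp x hxJ hxcl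
      exact hne a ha
  refine ⟨?_, ?_, h3⟩
  · by_contra hcon
    push Not at hcon
    have h4 := (h3 {k} (Finset.mem_singleton_self k)).1 fun i hs => absurd hs (hcon i)
    obtain ⟨a, ha⟩ := t8 k x h4
    exact hx.ne a ha
  · intro i hs
    by_contra hc
    obtain ⟨hik, p, hp, hne⟩ := hs
    obtain ⟨-, -, -, -, h6⟩ := m3 i hik p hp
    obtain ⟨a, ha⟩ := h6 (by omega)
    exact hne a ha

end Pool.Agent.NBT.H32
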